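import Mathlib

/-!
# Signed and minus domination: definitions and a Boolean interface
-/

set_option autoImplicit false

open Finset

namespace Pool.Agent.Q262.Cubic

variable {V : Type*} [Fintype V]

open Classical in
/-- `f(N[v])`, the sum of `f` over the closed neighbourhood of `v`. -/
noncomputable def closedSum (G : SimpleGraph V) (f : V → ℤ) (v : V) : ℤ :=
  ∑ u, if u = v ∨ G.Adj v u then f u else 0

/-- Minus dominating functions. -/
def IsMinusDom (G : SimpleGraph V) (f : V → ℤ) : Prop :=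
  (∀ v, f v = -1 ∨ f v = 0 ∨ f v = 1) ∧ ∀ v, 1 ≤ closedSum G f v

/-- Signed dominating functions. -/
def IsSignedDom (G : SimpleGraph V) (f : V → ℤ) : Prop :=
  (∀ v, f v = -1 ∨ f v = 1) ∧ ∀ v, 1 ≤ closedSum G f v

/-- Minimal minus dominating functions. -/
def IsMinimalMinusDom (G : SimpleGraph V) (f : V → ℤ) : Prop :=
  IsMinusDom G f ∧ ∀ g, IsMinusDom G g → (∀ u, g u ≤ f u) → g = f

/-- Minimal signed dominating functions. -/
def IsMinimalSignedDom (G : SimpleGraph V) (f : V → ℤ) : Prop :=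
  IsSignedDom G f ∧ ∀ g, IsSignedDom G g → (∀ u, g u ≤ f u) → g = f

/-- The upper minus domination number `Γ⁻(G)`. -/
noncomputable def upperMinus (G : SimpleGraph V) : ℤ :=
  sSup {w | ∃ f, IsMinimalMinusDom G f ∧ w = ∑ v, f v}

/-- The signed domination number `γ_s(G)`. -/
noncomputable def signedDom (G : SimpleGraph V) : ℤ :=
  sInf {w | ∃ f, IsSignedDom G f ∧ w = ∑ v, f v}

/-- The upper signed domination number `Γ_s(G)`. -/
noncomputable def upperSigned (G : SimpleGraph V) : ℤ :=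
  sSup {w | ∃ f, IsMinimalSignedDom G f ∧ w = ∑ v, f v}

/-- A graph is cubic if every vertex has exactly three neighbours. -/
def IsCubic (G : SimpleGraph V) : Prop := ∀ v, (G.neighborSet v).ncard = 3

lemma closedSum_le {G : SimpleGraph V} {f g : V → ℤ} (h : ∀ u, g u ≤ f u) (v : V) :
    closedSum G g v ≤ closedSum G f v := by
  unfold closedSum
  apply Finset.sum_le_sum
  intro u _
  split_ifs
  · exact h u
  · exact le_refl _

lemma closedSum_lt {G : SimpleGraph V} {f g : V → ℤ} (h : ∀ u, g u ≤ f u) {v x : V}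
    (hx : x = v ∨ G.Adj v x) (hlt : g x < f x) : closedSum G g v < closedSum G f v := by
  unfold closedSum
  apply Finset.sum_lt_sum
  · intro u _
    split_ifs
    · exact h u
    · exact le_refl _
  · refine ⟨x, mem_univ x, ?_⟩
    rw [if_pos hx, if_pos hx]
    exact hlt

/-- The usual criterion for minimality of a minus dominating function. -/
lemma minimal_of_criterion {G : SimpleGraph V} {f : V → ℤ} (hf : IsMinusDom G f)
    (h : ∀ v, 0 ≤ f v → ∃ u, (v = u ∨ G.Adj u v) ∧ closedSum G f u = 1) :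
    IsMinimalMinusDom G f := by
  refine ⟨hf, ?_⟩
  intro g hg hle
  by_contra hne
  obtain ⟨v, hv⟩ := Function.ne_iff.mp hne
  have hlt : g v < f v := lt_of_le_of_ne (hle v) hv
  have h0 : 0 ≤ f v := by
    rcases hg.1 v with h1 | h1 | h1 <;> omega
  obtain ⟨u, hu, hs⟩ := h v h0
  have h1 := closedSum_lt hle hu hlt
  have h2 := hg.2 u
  omega

lemma weight_bound {f : V → ℤ} (h : ∀ v, -1 ≤ f v ∧ f v ≤ 1) :
    -(Fintype.card V : ℤ) ≤ ∑ v, f v ∧ ∑ v, f v ≤ (Fintype.card V : ℤ) := by
  constructor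
  · have := Finset.card_nsmul_le_sum univ f (-1) (fun v _ => (h v).1)
    simpa [Finset.card_univ] using this
  · have := Finset.sum_le_card_nsmul univ f 1 (fun v _ => (h v).2)
    simpa [Finset.card_univ] using this

lemma le_upperMinus {G : SimpleGraph V} {f : V → ℤ} (hf : IsMinimalMinusDom G f) :
    ∑ v, f v ≤ upperMinus G := by
  apply le_csSup
  · refine ⟨(Fintype.card V : ℤ), ?_⟩
    rintro w ⟨g, hg, rfl⟩
    refine (weight_bound (fun v => ?_)).2
    rcases hg.1.1 v with h | h | h <;> omega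
  · exact ⟨f, hf, rfl⟩

lemma signedDom_le {G : SimpleGraph V} {f : V → ℤ} (hf : IsSignedDom G f) :
    signedDom G ≤ ∑ v, f v := by
  apply csInf_le
  · refine ⟨-(Fintype.card V : ℤ), ?_⟩
    rintro w ⟨g, hg, rfl⟩
    refine (weight_bound (fun v => ?_)).1
    rcases hg.1 v with h | h <;> omega
  · exact ⟨f, hf, rfl⟩

/-! ### Graphs on `Fin n` from a Boolean function -/

/-- The graph on `Fin n` with edges `{i, j}` where `(i, j)` or `(j, i)` is listed. -/
def ofList (n : ℕ) (L : List (ℕ × ℕ)) : SimpleGraph (Fin n) where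
  Adj i j := i ≠ j ∧ ((i.val, j.val) ∈ L ∨ (j.val, i.val) ∈ L)
  symm := ⟨fun _ _ h => ⟨h.1.symm, h.2.symm⟩⟩
  loopless := ⟨fun _ h => h.1 rfl⟩

instance (n : ℕ) (L : List (ℕ × ℕ)) : DecidableRel (ofList n L).Adj := fun i j =>
  inferInstanceAs (Decidable (i ≠ j ∧ ((i.val, j.val) ∈ L ∨ (j.val, i.val) ∈ L)))

/-- Computable version of `closedSum`. -/
def cs {n : ℕ} (L : List (ℕ × ℕ)) (f : Fin n → ℤ) (v : Fin n) : ℤ :=
  ∑ u : Fin n, if u = v ∨ (ofList n L).Adj v u then f u else 0

lemma closedSum_eq {n : ℕ} (L : List (ℕ × ℕ)) (f : Fin n → ℤ) (v : Fin n) :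
    closedSum (ofList n L) f v = cs L f v := by
  unfold closedSum cs
  apply Finset.sum_congr rfl
  intro u _
  congr

lemma cubic_of_decide {n : ℕ} (L : List (ℕ × ℕ))
    (h : ∀ v : Fin n, (univ.filter (fun u => (ofList n L).Adj v u)).card = 3) :
    IsCubic (ofList n L) := by
  intro v
  rw [← h v, ← Set.ncard_coe_finset]
  congr 1
  ext u
  simp [SimpleGraph.mem_neighborSet]

end Pool.Agent.Q262.Cubic
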